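import Mathlib
import Pool.Agent.H30.Hedge.Ring
import Pool.Agent.H81.HB.Geo

/-!
# The constants of the positive side
-/

open Set Filter Topology
open scoped ContDiff

namespace Pool.Agent.H81.HB.T.CST

open Pool.Agent.H30.Hedge (H2 H3 unif H2_cont fd_cont bounds)


lemma H2_smul (f : ℝ × ℝ → ℝ) (x v : ℝ × ℝ) (c : ℝ) :
    H2 f x (c • v) (c • v) = c ^ 2 * H2 f x v v := by
  unfold H2
  rw [map_smul, map_smul, smul_apply, smul_eq_mul, smul_eq_mul]
  ring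

theorem main : S_CST := by
  intro U K f F lam c0 D
  obtain ⟨hU, hK, hKU, hf, hF, hl, lpos, hc0, A1, A2⟩ := D
  have hfK : ContinuousOn (fderiv ℝ (fderiv ℝ f)) K := (H2_cont hU hf).mono hKU
  have hFK : ContinuousOn (fderiv ℝ F) K := (fd_cont hU hF).mono hKU
  have hF0 : ContinuousOn F K := hF.continuousOn.mono hKU
  have hl0 : ContinuousOn lam K := hl.continuousOn.mono hKU
  set S1 : Set (ℝ × ℝ) := {x | x ∈ K ∧ c0 ≤ F x} with hS1
  have hS1K : S1 ⊆ K := fun x hx => hx.1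
  have hS1c : IsCompact S1 := by
    have h1 : S1 = K ∩ F ⁻¹' (Ici c0) := by
      ext x
      rfl
    rw [h1]
    exact hK.of_isClosed_subset (hF0.preimage_isClosed_of_isClosed hK.isClosed isClosed_Ici)
      inter_subset_left
  have hsph : IsCompact (Metric.sphere (0 : ℝ × ℝ) 1) := isCompact_sphere _ _
  -- step 1
  have hX : IsCompact (S1 ×ˢ Metric.sphere (0 : ℝ × ℝ) 1) := hS1c.prod hsph
  have hg : ContinuousOn (fun z : (ℝ × ℝ) × (ℝ × ℝ) => |fderiv ℝ F z.1 z.2|)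
      (S1 ×ˢ Metric.sphere (0 : ℝ × ℝ) 1) := by
    apply ContinuousOn.abs
    have h1 : ContinuousOn (fun z : (ℝ × ℝ) × (ℝ × ℝ) => fderiv ℝ F z.1)
        (S1 ×ˢ Metric.sphere (0 : ℝ × ℝ) 1) :=
      hFK.comp continuousOn_fst fun z hz => hS1K hz.1
    exact h1.clm_apply continuousOn_snd
  have hh : ContinuousOn (fun z : (ℝ × ℝ) × (ℝ × ℝ) => H2 f z.1 z.2 z.2)
      (S1 ×ˢ Metric.sphere (0 : ℝ × ℝ) 1) := by
    have h1 : ContinuousOn (fun z : (ℝ × ℝ) × (ℝ × ℝ) => fderiv ℝ (fderiv ℝ f) z.1)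
        (S1 ×ˢ Metric.sphere (0 : ℝ × ℝ) 1) :=
      hfK.comp continuousOn_fst fun z hz => hS1K hz.1
    exact (h1.clm_apply continuousOn_snd).clm_apply continuousOn_snd
  obtain ⟨ν, hν, hν'⟩ := unif hX hg hh (by
    rintro ⟨x, v⟩ ⟨hx, hv⟩ h0
    have h1 : fderiv ℝ F x v = 0 := abs_nonpos_iff.1 h0
    refine A2 x hx.1 hx.2 v ?_ h1
    rintro rfl
    rw [mem_sphere_zero_iff_norm, norm_zero] at hv
    exact zero_ne_one hv)
  -- step 2
  obtain ⟨R, hR, hRb⟩ := bounds hU hK hKU hf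
  obtain ⟨l0, hl0p, hl0b⟩ : ∃ l0 : ℝ, 0 < l0 ∧ ∀ x ∈ K, l0 ≤ lam x := by
    rcases K.eq_empty_or_nonempty with h | hne
    · exact ⟨1, one_pos, by simp [h]⟩
    · obtain ⟨x0, hx0, hmin⟩ := hK.exists_isMinOn hne hl0
      exact ⟨lam x0, lpos x0 hx0, fun x hx => hmin hx⟩
  -- step 3
  have hφ : ContinuousOn (fun x : ℝ × ℝ => -sInf ((fun v => H2 f x v v) ''
      Metric.sphere (0 : ℝ × ℝ) 1)) S1 := by
    apply ContinuousOn.neg
    rw [continuousOn_iff_continuous_domRestrict]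
    refine IsCompact.continuous_sInf (f := fun (x : S1) (v : ℝ × ℝ) => H2 f x v v) hsph ?_
    have h1 : Continuous (fun x : S1 => fderiv ℝ (fderiv ℝ f) (x : ℝ × ℝ)) :=
      continuousOn_iff_continuous_domRestrict.1 (hfK.mono hS1K)
    have h2 : Continuous (fun z : S1 × (ℝ × ℝ) => fderiv ℝ (fderiv ℝ f) (z.1 : ℝ × ℝ)) :=
      h1.comp continuous_fst
    exact (h2.clm_apply continuous_snd).clm_apply continuous_snd
  have hmem : ∀ x ∈ S1, ∃ v, ‖v‖ = 1 ∧ H2 f x v v = sInf ((fun v => H2 f x v v) ''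
      Metric.sphere (0 : ℝ × ℝ) 1) := by
    intro x hx
    have h1 : ContinuousOn (fun v : ℝ × ℝ => H2 f x v v) (Metric.sphere (0 : ℝ × ℝ) 1) := by
      have h2 : Continuous (fun v : ℝ × ℝ => H2 f x v v) := by
        unfold H2
        exact ((fderiv ℝ (fderiv ℝ f) x).continuous.clm_apply continuous_id)
      exact h2.continuousOn
    have h2 : (Metric.sphere (0 : ℝ × ℝ) 1).Nonempty := ⟨(1, 0), by simp [Prod.norm_def]⟩
    obtain ⟨v, hv, hv2⟩ := (hsph.image_of_continuousOn h1).sInf_mem (h2.image _)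
    exact ⟨v, mem_sphere_zero_iff_norm.1 hv, hv2⟩
  have hle : ∀ x ∈ S1, ∀ v, ‖v‖ = 1 → sInf ((fun v => H2 f x v v) ''
      Metric.sphere (0 : ℝ × ℝ) 1) ≤ H2 f x v v := by
    intro x hx v hv
    refine csInf_le ⟨-R, ?_⟩ ⟨v, mem_sphere_zero_iff_norm.2 hv, rfl⟩
    rintro _ ⟨w, hw, rfl⟩
    have hw' := mem_sphere_zero_iff_norm.1 hw
    exact (abs_le.1 ((hRb x hx.1).2.2.1 w w hw' hw')).1
  obtain ⟨r, hr, hr'⟩ := unif hS1c (g := fun x => F x - c0) ((hF0.mono hS1K).sub continuousOn_const)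
    hφ (by
    intro x hx h0
    have h1 : F x = c0 := le_antisymm (by linarith) hx.2
    obtain ⟨⟨v, hv⟩, -⟩ := A1 x hx.1 (by rw [h1, abs_of_pos hc0])
    have hv0 : v ≠ 0 := by
      rintro rfl
      have : H2 f x 0 0 = 0 := by
        unfold H2
        simp
      rw [this] at hv
      exact lt_irrefl _ hv
    have hn : ‖(‖v‖⁻¹ • v)‖ = 1 := norm_smul_inv_norm (𝕜 := ℝ) hv0
    have h2 := hle x hx _ hn
    rw [H2_smul] at h2
    have h3 : 0 < (‖v‖⁻¹) ^ 2 := by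
      have := norm_pos_iff.2 hv0
      positivity
    have h4 : (‖v‖⁻¹) ^ 2 * H2 f x v v < 0 := mul_neg_of_pos_of_neg h3 hv
    linarith)
  -- conclusion
  set m := min ν r with hm
  have hmp : 0 < m := lt_min hν hr
  refine ⟨(R + m) / (l0 * ν ^ 2), m, ν, r, by positivity, hmp, hν, hr, ?_, ?_, ?_⟩
  · intro x hx hFx v hv
    have hx1 : x ∈ S1 := ⟨hx, hFx⟩
    rcases le_or_gt |fderiv ℝ F x v| ν with h1 | h1
    · have h2 := hν' (x, v) ⟨hx1, mem_sphere_zero_iff_norm.2 hv⟩ h1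
      have h3 : 0 ≤ (R + m) / (l0 * ν ^ 2) * (lam x * (fderiv ℝ F x v) ^ 2) := by
        have := lpos x hx
        positivity
      have h4 : m ≤ ν := min_le_left _ _
      simp only at h2
      linarith
    · have h2 : ν ^ 2 ≤ (fderiv ℝ F x v) ^ 2 := by
        rw [← sq_abs (fderiv ℝ F x v)]
        exact pow_le_pow_left₀ hν.le h1.le 2
      have h3 : l0 * ν ^ 2 ≤ lam x * (fderiv ℝ F x v) ^ 2 :=
        mul_le_mul (hl0b x hx) h2 (by positivity) (lpos x hx).le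
      have h4 : R + m ≤ (R + m) / (l0 * ν ^ 2) * (lam x * (fderiv ℝ F x v) ^ 2) := by
        have h5 : 0 < l0 * ν ^ 2 := by positivity
        calc R + m = (R + m) / (l0 * ν ^ 2) * (l0 * ν ^ 2) := by field_simp
          _ ≤ _ := by gcongr
      have h5 := (abs_le.1 ((hRb x hx).2.2.1 v v hv hv)).1
      linarith
  · intro x hx hFx v hv h1
    have h2 := hν' (x, v) ⟨⟨hx, hFx⟩, mem_sphere_zero_iff_norm.2 hv⟩ h1
    have h4 : m ≤ ν := min_le_left _ _
    simp only at h2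
    linarith
  · intro x hx hFx hFx'
    have hx1 : x ∈ S1 := ⟨hx, hFx⟩
    obtain ⟨v, hv, hv'⟩ := hmem x hx1
    refine ⟨v, hv, ?_⟩
    rw [hv']
    have h1 := hr' x hx1 (by linarith)
    have h4 : m ≤ r := min_le_right _ _
    linarith

end Pool.Agent.H81.HB.T.CST
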