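import Pool.Agent.H81.HB.Geo
import Pool.Agent.H30.Hedge.Side

/-!
# Estimates of the derivatives of the perturbed function
-/

open Set Filter Topology
open scoped ContDiff

namespace Pool.Agent.H81.HB.T.EST

open Pool.Agent.H30.Hedge (H2 H3 H2_symm pert pert_D2 pert_D3 bounds real_est3)

noncomputable section

lemma gg_eq (f F lam : ℝ × ℝ → ℝ) (G : ℝ → ℝ) : gg f F lam G = pert f F lam G 1 := by
  funext x
  simp [gg, pert]

lemma real_est2 {ql p0 p1 dF dl qF l R η : ℝ} (hR : 1 ≤ R) (F1 : |dF| ≤ R)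
    (F2 : |qF| ≤ R) (L0 : |l| ≤ R) (L1 : |dl| ≤ R) (L2 : |ql| ≤ R) (c0 : |p0| ≤ η)
    (c1 : |p1| ≤ η) :
    |ql * p0 + 2 * (dl * p1 * dF) + l * p1 * qF| ≤ 40 * R ^ 3 * η := by
  have hη : 0 ≤ η := (abs_nonneg _).trans c0
  have hR0 : 0 ≤ R := by linarith
  have hR12 : R ≤ R ^ 2 := by nlinarith
  have hR23 : R ^ 2 ≤ R ^ 3 := by nlinarith [sq_nonneg R]
  have hR13 : R ≤ R ^ 3 := hR12.trans hR23
  have k1 : R * η ≤ R ^ 3 * η := mul_le_mul_of_nonneg_right hR13 hη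
  have k2 : R ^ 2 * η ≤ R ^ 3 * η := mul_le_mul_of_nonneg_right hR23 hη
  have s1 : |ql * p0| ≤ R ^ 3 * η := by
    rw [abs_mul]
    have := mul_le_mul L2 c0 (abs_nonneg _) hR0
    linarith
  have m3 : ∀ a b c : ℝ, |a| ≤ R → |b| ≤ η → |c| ≤ R → |a * b * c| ≤ R ^ 3 * η := by
    intro a b c ha hb hc
    rw [abs_mul, abs_mul]
    have := mul_le_mul (mul_le_mul ha hb (abs_nonneg _) hR0) hc (abs_nonneg _) (by positivity)
    have e : R * η * R = R ^ 2 * η := by ring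
    rw [e] at this
    linarith
  have s2 := m3 _ _ _ L1 c1 F1
  have s3 := m3 _ _ _ L0 c1 F2
  clear m3
  have hR3 : 0 ≤ R ^ 3 * η := by positivity
  have e : 40 * R ^ 3 * η = 40 * (R ^ 3 * η) := by ring
  rw [abs_le] at s1 s2 s3 ⊢
  rw [e]
  constructor
  · linarith [s1.1, s2.1, s3.1]
  · linarith [s1.2, s2.2, s3.2]

theorem main : S_EST := by
  intro U K f F lam hU hK hKU hf hF hl
  obtain ⟨Rf, hRf, bf⟩ := bounds hU hK hKU hf
  obtain ⟨RF, hRF, bF⟩ := bounds hU hK hKU hF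
  obtain ⟨Rl, hRl, bl⟩ := bounds hU hK hKU hl
  set R : ℝ := max Rf (max RF Rl) with hRdef
  have r1 : Rf ≤ R := le_max_left _ _
  have r2 : RF ≤ R := (le_max_left _ _).trans (le_max_right _ _)
  have r3 : Rl ≤ R := (le_max_right _ _).trans (le_max_right _ _)
  have hR : 1 ≤ R := hRf.trans r1
  have mono : ∀ {g : ℝ × ℝ → ℝ} {R' : ℝ}, R' ≤ R → (∀ x ∈ K, |g x| ≤ R' ∧
      (∀ v, ‖v‖ = 1 → |fderiv ℝ g x v| ≤ R') ∧ (∀ v w, ‖v‖ = 1 → ‖w‖ = 1 → |H2 g x v w| ≤ R') ∧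
      ∀ v, ‖v‖ = 1 → |H3 g x v v v| ≤ R') → ∀ x ∈ K, |g x| ≤ R ∧
      (∀ v, ‖v‖ = 1 → |fderiv ℝ g x v| ≤ R) ∧ (∀ v w, ‖v‖ = 1 → ‖w‖ = 1 → |H2 g x v w| ≤ R) ∧
      ∀ v, ‖v‖ = 1 → |H3 g x v v v| ≤ R := by
    intro g R' hR' h x hx
    obtain ⟨h1, h2, h3, h4⟩ := h x hx
    exact ⟨h1.trans hR', fun v hv => (h2 v hv).trans hR', fun v w hv hw => (h3 v w hv hw).trans hR',
      fun v hv => (h4 v hv).trans hR'⟩
  have bf := mono r1 bf
  have bF := mono r2 bF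
  have bl := mono r3 bl
  have hRR : R ≤ 40 * R ^ 3 := by nlinarith [sq_nonneg R, sq_nonneg (R - 1), mul_self_nonneg (R - 1)]
  refine ⟨40 * R ^ 3, by linarith, fun x hx => ⟨(bl x hx).1.trans hRR,
    fun v hv => ((bF x hx).2.1 v hv).trans hRR,
    fun v hv => ((bf x hx).2.2.1 v v hv hv).trans hRR⟩, ?_⟩
  intro G G1 G2 G3 hT η hη hη1 x hx h0 h1
  have hG3 : ContDiff ℝ 3 G := contDiff_infty.1 hT.sm 3
  rw [gg_eq]
  obtain ⟨-, -, -, f3⟩ := bf x hx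
  obtain ⟨-, F1, F2, F3⟩ := bF x hx
  obtain ⟨L0, L1, L2, L3⟩ := bl x hx
  refine ⟨fun v hv => ?_, fun v hv => ?_⟩
  · rw [pert_D2 hU hf hF hl hG3 one_ne_zero hT.d0 hT.d1 (hKU hx) v]
    have h := real_est2 hR (F1 v hv) (F2 v v hv hv) L0 (L1 v hv) (L2 v v hv hv) h0 h1
    refine le_trans (le_of_eq ?_) h
    rw [div_one]
    congr 1
    ring
  · rw [pert_D3 hU hf hF hl hG3 one_ne_zero hT.d0 hT.d1 hT.d2 (hKU hx) v]
    have h := real_est3 (C := 1 + |G2 (F x)|) hR one_pos le_rfl (f3 v hv) (F1 v hv)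
      (F2 v v hv hv) (F3 v hv) L0 (L1 v hv) (L2 v v hv hv) (L3 v hv)
      (h0.trans (hη1.trans (by linarith [abs_nonneg (G2 (F x))])))
      (h1.trans (hη1.trans (by linarith [abs_nonneg (G2 (F x))])))
      (show |G2 (F x)| ≤ 1 + |G2 (F x)| by linarith)
    have h2 : 20 * R ^ 3 * (1 + (1 + |G2 (F x)|)) ≤ 40 * R ^ 3 * (1 + |G2 (F x)|) := by
      have h3 : 0 ≤ R ^ 3 := by positivity
      have h4 := mul_nonneg h3 (abs_nonneg (G2 (F x)))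
      nlinarith
    refine le_trans (le_of_eq ?_) (h.trans h2)
    rw [div_one, div_one]
    congr 1
    ring

end

end Pool.Agent.H81.HB.T.EST
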