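import Pool.Agent.H81.HB.Geo
import Pool.Agent.H30.Hedge.Side

/-!
# The ring insertion from the function of one variable and the positive side
-/

open Set Filter Topology
open scoped ContDiff

namespace Pool.Agent.H81.HB.T.GEO

open Pool.Agent.H30.Hedge (H2 H3 H2_symm no_kernel bounds H2_neg H3_neg fd_neg)

noncomputable section

lemma data_neg {U K : Set (ℝ × ℝ)} {f F lam : ℝ × ℝ → ℝ} {c0 : ℝ} (hD : Data U K f F lam c0)
    (hn : ∀ x ∈ K, F x ≤ -c0 → ∀ t, t ≠ 0 → fderiv ℝ F x t = 0 → H2 f x t t < 0) :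
    Data U K (fun x => -f x) (fun x => -F x) lam c0 where
  hU := hD.hU
  hK := hD.hK
  hKU := hD.hKU
  hf := hD.hf.neg
  hF := hD.hF.neg
  hl := hD.hl
  lpos := hD.lpos
  hc0 := hD.hc0
  A1 := by
    intro x hx h
    rw [abs_neg] at h
    obtain ⟨⟨v, hv⟩, w, hw⟩ := hD.A1 x hx h
    refine ⟨⟨w, ?_⟩, v, ?_⟩
    · rw [H2_neg]
      linarith
    · rw [H2_neg]
      linarith
  A2 := by
    intro x hx h t ht0 ht
    rw [fd_neg] at ht
    rw [H2_neg]
    have := hn x hx (by linarith) t ht0 (by simpa using ht)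
    linarith

lemma gg_neg (f F lam : ℝ × ℝ → ℝ) {G : ℝ → ℝ} (hG : ∀ s, G (-s) = -G s) :
    gg (fun x => -f x) (fun x => -F x) lam G = fun x => -gg f F lam G x := by
  funext x
  simp only [gg, hG]
  ring

lemma H2_congr {f g : ℝ × ℝ → ℝ} {x : ℝ × ℝ} (h : g =ᶠ[𝓝 x] f) (v w : ℝ × ℝ) :
    H2 g x v w = H2 f x v w := by
  unfold H2
  rw [h.fderiv.fderiv_eq]

theorem main (one : S_OneD) (side : S_SIDE) : S_GEO := by
  intro U K f F lam c0 hD hneg hfin
  have hD' := data_neg hD hneg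
  obtain ⟨La, hLa, sa⟩ := side U K f F lam c0 hD
  obtain ⟨Lb, hLb, sb⟩ := side U K _ _ lam c0 hD'
  set L := max La Lb with hL
  have hLpos : 0 < L := lt_max_of_lt_left hLa
  obtain ⟨ηa, hηa, sa⟩ := sa L (le_max_left _ _)
  obtain ⟨ηb, hηb, sb⟩ := sb L (le_max_right _ _)
  obtain ⟨RF, hRF, bF⟩ := bounds hD.hU hD.hK hD.hKU hD.hF
  set S : ℝ := RF + c0 with hS
  have hFS : ∀ x ∈ K, |F x| ≤ S := fun x hx => (bF x hx).1.trans (by linarith [hD.hc0])
  set D : Set ℝ := {c | ∀ x ∈ K, (F x = c ∨ F x = -c) → fderiv ℝ F x ≠ 0} with hDdef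
  have hdense : ∀ a b, c0 ≤ a → a < b → ∃ c ∈ D, a < c ∧ c < b := by
    intro a b ha hab
    set crit : Set ℝ := {s : ℝ | ∃ x ∈ K, c0 ≤ |F x| ∧ fderiv ℝ F x = 0 ∧ F x = s} with hcrit
    have h1 : (crit ∪ (fun s => -s) '' crit).Finite := hfin.union (hfin.image _)
    obtain ⟨c, ⟨hc1, hc2⟩, hc3⟩ := ((Set.Ioo_infinite hab).sdiff h1).nonempty
    refine ⟨c, ?_, hc1, hc2⟩
    intro x hx hFx h0
    refine hc3 ?_
    have hcpos : 0 < c := lt_of_lt_of_le hD.hc0 (ha.trans hc1.le)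
    rcases hFx with h | h
    · exact Or.inl ⟨x, hx, by rw [h, abs_of_pos hcpos]; exact ha.trans hc1.le, h0, h⟩
    · exact Or.inr ⟨-c, ⟨x, hx, by rw [h, abs_neg, abs_of_pos hcpos]; exact ha.trans hc1.le, h0, h⟩,
        neg_neg c⟩
  obtain ⟨C, hC, hone⟩ := one L c0 S D hLpos hD.hc0 (by linarith) hdense (min ηa ηb)
    (lt_min hηa hηb)
  obtain ⟨κa, ra, L1a, hκa, hra, hL1a, sa⟩ := sa C (fun c hc x hx h => (hC c hc).1 x hx (Or.inl h))
  obtain ⟨κb, rb, L1b, hκb, hrb, hL1b, sb⟩ := sb C (fun c hc x hx h h0 => by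
    rw [fd_neg] at h0
    exact (hC c hc).1 x hx (Or.inr (by linarith)) (by simpa using h0))
  obtain ⟨Λa, hΛa, sa⟩ := sa (min κa κb) (min ra rb) (max L1a L1b) (lt_min hκa hκb)
    (min_le_left _ _) (lt_min hra hrb) (min_le_left _ _) (le_max_left _ _)
  obtain ⟨Λb, hΛb, sb⟩ := sb (min κa κb) (min ra rb) (max L1a L1b) (lt_min hκa hκb)
    (min_le_right _ _) (lt_min hra hrb) (min_le_right _ _) (le_max_right _ _)
  obtain ⟨G, G1, G2, G3, hG, hd0, hd1, hd2, hodd, hzero, hbd, hgood⟩ :=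
    hone (min κa κb) (max L1a L1b) (max Λa Λb) (min ra rb) (lt_min hκa hκb)
      (lt_max_of_lt_left hL1a) (lt_max_of_lt_left hΛa) (lt_min hra hrb)
  have hT : Tow G G1 G2 G3 := ⟨hG, hd0, hd1, hd2⟩
  have sa := sa (max Λa Λb) (le_max_left _ _) S G G1 G2 G3 hT
    (fun s hs => ⟨(hbd s hs).1.trans (min_le_left _ _), (hbd s hs).2.trans (min_le_left _ _)⟩) hgood
  have sb := sb (max Λa Λb) (le_max_right _ _) S G G1 G2 G3 hT
    (fun s hs => ⟨(hbd s hs).1.trans (min_le_right _ _), (hbd s hs).2.trans (min_le_right _ _)⟩) hgood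
  refine ⟨G, hG, hodd, hzero, fun x hx k hk0 hk => ?_⟩
  have hxU := hD.hKU hx
  rcases lt_or_ge |F x| c0 with h | h
  · exfalso
    have hFc : ContinuousAt F x := (hD.hF.continuousOn).continuousAt (hD.hU.mem_nhds hxU)
    have hev : gg f F lam G =ᶠ[𝓝 x] f := by
      filter_upwards [hFc.abs.eventually (gt_mem_nhds h)] with y hy
      simp only [gg]
      rw [hzero _ (le_of_lt hy), mul_zero, add_zero]
    obtain ⟨⟨v, hv⟩, t, ht⟩ := hD.A1 x hx h.le
    refine no_kernel (by simp) (fun a b => H2_symm hD.hU hD.hf hxU a b) ht hv hk0 (fun w => ?_)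
    rw [← H2_congr hev]
    exact hk w
  · rcases le_abs.mp h with h1 | h1
    · exact sa x hx h1 ((le_abs_self _).trans (hFS x hx)) k hk0 hk
    · have h2 := sb x hx h1 ((neg_le_abs _).trans (hFS x hx)) k hk0 (fun v => by
        rw [gg_neg f F lam hodd, H2_neg, hk v, neg_zero])
      rw [gg_neg f F lam hodd] at h2
      obtain ⟨h3, v, h4⟩ := h2
      rw [H3_neg] at h3
      rw [H2_neg] at h4
      exact ⟨fun h5 => h3 (by rw [h5, neg_zero]), v, fun h5 => h4 (by rw [h5, neg_zero])⟩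

end

end Pool.Agent.H81.HB.T.GEO
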