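import Mathlib
import Pool.Agent.H81.HB.Geo

/-!
# Near finitely many regular levels the gradient is bounded below
-/

open Set Filter Topology
open scoped ContDiff

namespace Pool.Agent.H81.HB.T.LEV

open Pool.Agent.H30.Hedge (H2 H3)

lemma unit_of_norm {f : (ℝ × ℝ) →L[ℝ] ℝ} {g : ℝ} (hg0 : 0 < g) (hg : g < ‖f‖) :
    ∃ n, ‖n‖ = 1 ∧ g ≤ f n := by
  obtain ⟨x, hx1, hx2⟩ := f.exists_lt_apply_of_lt_opNorm hg
  have hx0 : 0 < ‖x‖ := by
    rcases eq_or_lt_of_le (norm_nonneg x) with h | h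
    · have : x = 0 := by rw [← norm_eq_zero]; exact h.symm
      rw [this] at hx2
      simp at hx2
      linarith
    · exact h
  have habs : g ≤ |f x| / ‖x‖ := by
    rw [le_div_iff₀ hx0]
    have : |f x| = ‖f x‖ := rfl
    nlinarith
  rcases le_total 0 (f x) with h | h
  · refine ⟨‖x‖⁻¹ • x, by rw [norm_smul, norm_inv, norm_norm, inv_mul_cancel₀ hx0.ne'], ?_⟩
    rw [map_smul, smul_eq_mul]
    rw [abs_of_nonneg h, div_eq_inv_mul] at habs
    exact habs
  · refine ⟨-(‖x‖⁻¹ • x), by rw [norm_neg, norm_smul, norm_inv, norm_norm, inv_mul_cancel₀ hx0.ne'], ?_⟩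
    rw [map_neg, map_smul, smul_eq_mul]
    rw [abs_of_nonpos h, div_eq_inv_mul] at habs
    linarith

theorem main : S_LEV := by
  intro U K F hU hK hKU hF C hC
  have hD1 : ContDiffOn ℝ 2 (fderiv ℝ F) U := Pool.Agent.H30.Hedge.contDiffOn1 hU hF
  have hFc : ContinuousOn F K := hF.continuousOn.mono hKU
  have hDc : ContinuousOn (fderiv ℝ F) K := hD1.continuousOn.mono hKU
  -- for each level a radius and a bound
  have key : ∀ c ∈ C, ∃ e : ℝ, 0 < e ∧ ∀ x ∈ K, |F x - c| ≤ e → e < ‖fderiv ℝ F x‖ := by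
    intro c hc
    have hφc : ContinuousOn (fun x => |F x - c| + ‖fderiv ℝ F x‖) K :=
      ((hFc.sub continuousOn_const).abs).add hDc.norm
    rcases K.eq_empty_or_nonempty with hE | hE
    · refine ⟨1, one_pos, fun x hx => ?_⟩
      rw [hE] at hx
      exact absurd hx (notMem_empty x)
    · obtain ⟨x0, hx0, hmin⟩ := hK.exists_isMinOn hE hφc
      have hpos : 0 < |F x0 - c| + ‖fderiv ℝ F x0‖ := by
        rcases eq_or_ne (F x0) c with h | h
        · have := norm_pos_iff.2 (hC c hc x0 hx0 h)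
          have h2 := abs_nonneg (F x0 - c)
          linarith
        · have := abs_pos.2 (sub_ne_zero.2 h)
          have h2 := norm_nonneg (fderiv ℝ F x0)
          linarith
      refine ⟨(|F x0 - c| + ‖fderiv ℝ F x0‖) / 3, by positivity, fun x hx hle => ?_⟩
      have h1 := isMinOn_iff.1 hmin x hx
      linarith
  choose! e he1 he2 using key
  rcases C.eq_empty_or_nonempty with hCe | hCe
  · refine ⟨1, 1, one_pos, one_pos, fun x _ hx => ?_⟩
    obtain ⟨c, hc, _⟩ := hx
    rw [hCe] at hc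
    exact absurd hc (Finset.notMem_empty c)
  · obtain ⟨c0, hc0, hmin⟩ := C.exists_min_image e hCe
    refine ⟨e c0, e c0, he1 c0 hc0, he1 c0 hc0, fun x hx hx' => ?_⟩
    obtain ⟨c, hc, hcx⟩ := hx'
    have h1 := he2 c hc x hx (hcx.trans (hmin c hc))
    exact unit_of_norm (he1 c0 hc0) (lt_of_le_of_lt (hmin c hc) h1)

end Pool.Agent.H81.HB.T.LEV
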