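import Mathlib
import Pool.Agent.H81.HB.Geo

/-!
# Nondegenerate critical points on a compact set have finitely many values
-/

open Set Filter Topology
open scoped ContDiff

namespace Pool.Agent.H81.HB.T.MORSE

open Pool.Agent.H30.Hedge (H2 H3)

theorem main : S_MORSE := by
  intro U K F c0 hU hK hKU hF hnd
  have hD1 : ContDiffOn ℝ 2 (fderiv ℝ F) U := Pool.Agent.H30.Hedge.contDiffOn1 hU hF
  have hFc : ContinuousOn F K := hF.continuousOn.mono hKU
  have hDc : ContinuousOn (fderiv ℝ F) K := hD1.continuousOn.mono hKU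
  set S : Set (ℝ × ℝ) := {x | x ∈ K ∧ c0 ≤ |F x| ∧ fderiv ℝ F x = 0} with hS
  have hSsub : S ⊆ K := fun x hx => hx.1
  have hScl : IsCompact S := by
    have h1 : IsClosed (K ∩ (fun x => |F x|) ⁻¹' Ici c0) :=
      (continuous_abs.comp_continuousOn hFc).preimage_isClosed_of_isClosed hK.isClosed isClosed_Ici
    have h2 : IsClosed (K ∩ (fderiv ℝ F) ⁻¹' {0}) :=
      hDc.preimage_isClosed_of_isClosed hK.isClosed isClosed_singleton
    have h3 : S = (K ∩ (fun x => |F x|) ⁻¹' Ici c0) ∩ (K ∩ (fderiv ℝ F) ⁻¹' {0}) := by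
      ext x
      simp only [hS, Set.mem_ofPred_eq, mem_inter_iff, mem_preimage, mem_Ici, mem_singleton_iff]
      tauto
    rw [h3]
    exact (hK.inter_right (s := K) (t := K ∩ (fderiv ℝ F) ⁻¹' {0} ∩ (K ∩ (fun x => |F x|) ⁻¹' Ici c0)) (h2.inter h1)) |>.of_isClosed_subset
      (h1.inter h2) (by
        intro x hx
        exact ⟨hx.1.1, hx.2, hx.1⟩)
  have hfin : S.Finite := by
    by_contra hinf
    obtain ⟨x, hxS, hacc⟩ := Set.Infinite.exists_accPt_of_subset_isCompact hinf hScl (Subset.refl _)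
    have hxK := hxS.1
    have hder : HasFDerivAt (fderiv ℝ F) (fderiv ℝ (fderiv ℝ F) x) x :=
      (Pool.Agent.H30.Hedge.diff1 hU hF (hKU hxK)).hasFDerivAt
    have hinj : ∀ k, fderiv ℝ (fderiv ℝ F) x k = 0 → k = 0 := by
      intro k hk
      by_contra hk0
      obtain ⟨v, hv⟩ := hnd x hxK hxS.2.1 hxS.2.2 k hk0
      apply hv
      simp [H2, hk]
    have hanti : ∃ C, AntilipschitzWith C (fderiv ℝ (fderiv ℝ F) x) := by
      have hinj' : Function.Injective (fderiv ℝ (fderiv ℝ F) x) := by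
        rw [injective_iff_map_eq_zero]
        exact hinj
      obtain ⟨C, hC, hanti⟩ := LinearMap.exists_antilipschitzWith
        (fderiv ℝ (fderiv ℝ F) x).toLinearMap (LinearMap.ker_eq_bot.2 hinj')
      exact ⟨C, hanti⟩
    have hne := hder.eventually_ne hanti (c := 0)
    rw [accPt_iff_frequently_nhdsNE] at hacc
    obtain ⟨y, hy1, hy2⟩ := (hacc.and_eventually hne).exists
    exact hy2 hy1.2.2
  refine (hfin.image F).subset ?_
  rintro s ⟨x, hx, h1, h2, rfl⟩
  exact ⟨x, ⟨hx, h1, h2⟩, rfl⟩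

end Pool.Agent.H81.HB.T.MORSE
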