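import Pool.Agent.H81.HB.Geo
import Pool.Agent.H30.Hedge.Side

/-!
# The positive side of the ring insertion
-/

open Set Filter Topology
open scoped ContDiff

namespace Pool.Agent.H81.HB.T.SIDE

open Pool.Agent.H30.Hedge (H2 H3 H2_symm no_kernel exists_unit_ker unif conc_of_unit)

noncomputable section

/-- the algebra for the four cases -/
lemma case_a {h lam G2 d m R κ L L0 e : ℝ} (hR : 1 ≤ R) (hm : 0 < m) (hl : 0 < lam)
    (hlR : lam ≤ R) (hd : |d| ≤ R) (h1 : m ≤ h + L0 * (lam * d ^ 2)) (hL : L0 ≤ L)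
    (hκ0 : 0 < κ) (hκ : κ ≤ m / (4 * R ^ 3)) (hG : L - κ ≤ G2) (he : |0 - h - lam * G2 * d ^ 2| ≤ e)
    (hm4 : e ≤ m / 4) : False := by
  have hR3 : (0 : ℝ) < 4 * R ^ 3 := by positivity
  have h2 : κ * (4 * R ^ 3) ≤ m := by rwa [le_div_iff₀ hR3] at hκ
  have hd2 : d ^ 2 ≤ R ^ 2 := by
    rw [← sq_abs d]
    exact pow_le_pow_left₀ (abs_nonneg d) hd 2
  have h3 : lam * d ^ 2 ≤ R * R ^ 2 := mul_le_mul hlR hd2 (sq_nonneg d) (by linarith)
  have h4 : 0 ≤ lam * d ^ 2 := mul_nonneg hl.le (sq_nonneg d)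
  have h5 : κ * (lam * d ^ 2) ≤ κ * (R * R ^ 2) := mul_le_mul_of_nonneg_left h3 hκ0.le
  have h6 : (L - κ) * (lam * d ^ 2) ≤ G2 * (lam * d ^ 2) := mul_le_mul_of_nonneg_right hG h4
  have h7 : L0 * (lam * d ^ 2) ≤ L * (lam * d ^ 2) := mul_le_mul_of_nonneg_right hL h4
  have h8 := (abs_le.mp he).1
  nlinarith

lemma low {h lam G2 d m R L1 ν1 e : ℝ} (hm : 0 < m) (hl : 0 < lam) (hlR : lam ≤ R)
    (hL1 : 0 < L1) (hν1 : ν1 ≤ 1) (hν2 : ν1 * (2 * R * L1) ≤ m) (hd : |d| < ν1) (h1 : m ≤ h)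
    (hG : -L1 ≤ G2) (he : |0 - h - lam * G2 * d ^ 2| ≤ e) (hm4 : e ≤ m / 4) : False := by
  have h0 := abs_nonneg d
  have hd2 : d ^ 2 ≤ ν1 := by
    rw [← sq_abs d]
    nlinarith
  have h2 : 0 ≤ lam * d ^ 2 := mul_nonneg hl.le (sq_nonneg d)
  have h3 : lam * d ^ 2 ≤ R * ν1 := mul_le_mul hlR hd2 (sq_nonneg d) (by linarith)
  have h4 : -L1 * (lam * d ^ 2) ≤ G2 * (lam * d ^ 2) := mul_le_mul_of_nonneg_right hG h2
  have h5 := (abs_le.mp he).1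
  have h6 : L1 * (lam * d ^ 2) ≤ L1 * (R * ν1) := mul_le_mul_of_nonneg_left h3 hL1.le
  nlinarith

theorem main (cst : S_CST) (lev : S_LEV) (est : S_EST) : S_SIDE := by
  intro U K f F lam c0 hD
  obtain ⟨L0, m, ν, r1, hL0, hm, hν, hr1, c1, c2, c3⟩ := cst U K f F lam c0 hD
  obtain ⟨R, hR, bR, eR⟩ := est U K f F lam hD.hU hD.hK hD.hKU hD.hf hD.hF hD.hl
  obtain ⟨l0, hl0, hl0'⟩ := unif hD.hK (g := fun _ => 0) (h := lam) continuousOn_const
    (hD.hl.continuousOn.mono hD.hKU) (fun x hx _ => hD.lpos x hx)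
  have hlam0 : ∀ x ∈ K, l0 ≤ lam x := fun x hx => hl0' x hx hl0.le
  have hR0 : 0 < R := by linarith
  refine ⟨L0, hL0, fun L hL => ?_⟩
  have hLpos : 0 < L := lt_of_lt_of_le hL0 hL
  set η0 : ℝ := min 1 (m / (4 * R)) with hη0
  have hη0pos : 0 < η0 := lt_min one_pos (by positivity)
  have hη1 : η0 ≤ 1 := min_le_left _ _
  have hRη : R * η0 ≤ m / 4 := by
    have h1 : η0 ≤ m / (4 * R) := min_le_right _ _
    calc R * η0 ≤ R * (m / (4 * R)) := mul_le_mul_of_nonneg_left h1 hR0.le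
      _ = m / 4 := by field_simp
  refine ⟨η0, hη0pos, fun C hC => ?_⟩
  obtain ⟨r2, g, hr2, hg, hlev⟩ := lev U K F hD.hU hD.hK hD.hKU hD.hF C hC
  refine ⟨m / (4 * R ^ 3), min r1 r2, (2 * R + 1) / (l0 * g ^ 2), by positivity,
    lt_min hr1 hr2, by positivity, fun κ r L1 hκ hκ0 hr hr0 hL1 => ?_⟩
  have hrr1 : r ≤ r1 := hr0.trans (min_le_left _ _)
  have hrr2 : r ≤ r2 := hr0.trans (min_le_right _ _)
  have hL1pos : 0 < L1 := lt_of_lt_of_le (by positivity) hL1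
  have hL1' : 2 * R + 1 ≤ L1 * (l0 * g ^ 2) := by
    rwa [div_le_iff₀ (by positivity)] at hL1
  set ν1 : ℝ := min ν (min 1 (m / (2 * R * L1))) with hν1
  have hν1pos : 0 < ν1 := lt_min hν (lt_min one_pos (by positivity))
  have hν1a : ν1 ≤ ν := min_le_left _ _
  have hν1b : ν1 ≤ 1 := (min_le_right _ _).trans (min_le_left _ _)
  have hν1c : ν1 * (2 * R * L1) ≤ m := by
    have h1 : ν1 ≤ m / (2 * R * L1) := (min_le_right _ _).trans (min_le_right _ _)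
    rwa [le_div_iff₀ (by positivity)] at h1
  refine ⟨(R * (1 + L + L1) + 1) / (l0 * ν1 ^ 3), by positivity,
    fun Λ hΛ S G G1 G2 G3 hT hGb hGood x hx hF0 hFS => ?_⟩
  have hΛ' : R * (1 + L + L1) + 1 ≤ Λ * (l0 * ν1 ^ 3) := by
    rwa [div_le_iff₀ (by positivity)] at hΛ
  have hΛpos : 0 < Λ := lt_of_lt_of_le (by positivity) hΛ
  have hdim : Module.finrank ℝ (ℝ × ℝ) = 2 := by simp
  have hgc : ContDiffOn ℝ 3 (gg f F lam G) U := by
    unfold gg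
    exact hD.hf.add (hD.hl.mul ((contDiff_infty.1 hT.sm 3).comp_contDiffOn hD.hF))
  have hxU := hD.hKU hx
  have hsym : ∀ a b, H2 (gg f F lam G) x a b = H2 (gg f F lam G) x b a :=
    fun a b => H2_symm hD.hU hgc hxU a b
  have hFabs : |F x| ≤ S := by rw [abs_of_nonneg (hD.hc0.le.trans hF0)]; exact hFS
  obtain ⟨hg0, hg1⟩ := hGb (F x) hFabs
  obtain ⟨e2, e3⟩ := eR G G1 G2 G3 hT η0 hη0pos.le hη1 x hx hg0 hg1
  obtain ⟨hlR, hdR, hfR⟩ := bR x hx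
  have hlx : 0 < lam x := hD.lpos x hx
  have hlxR : lam x ≤ R := (le_abs_self _).trans hlR
  have hlx0 : l0 ≤ lam x := hlam0 x hx
  obtain ⟨t, ht1, ht⟩ := exists_unit_ker hdim (fderiv ℝ F x)
  have hgt : 0 < H2 (gg f F lam G) x t t := by
    have h1 := (abs_le.mp (e2 t ht1)).1
    have h2 := c2 x hx hF0 t ht1 (by rw [ht, abs_zero]; exact hν.le)
    rw [ht] at h1
    have h3 : lam x * G2 (F x) * (0 : ℝ) ^ 2 = 0 := by ring
    linarith
  refine conc_of_unit (g := gg f F lam G) (x := x) fun k hk1 hk => ?_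
  have hk0 : k ≠ 0 := by rintro rfl; simp at hk1
  have ek := e2 k hk1
  rw [hk k] at ek
  refine ⟨?_, t, hgt.ne'⟩
  -- the last case
  have fin : -L1 ≤ G2 (F x) → G2 (F x) ≤ L → Λ ≤ |G3 (F x)| →
      H3 (gg f F lam G) x k k k ≠ 0 := by
    intro h1 h2 h3 h4
    have hd : ν1 ≤ |fderiv ℝ F x k| := by
      by_contra hcon
      push Not at hcon
      exact low hm hlx hlxR hL1pos hν1b hν1c hcon
        (c2 x hx hF0 k hk1 (hcon.le.trans hν1a)) h1 ek hRη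
    have h5 := e3 k hk1
    rw [h4, zero_sub, abs_neg, abs_mul, abs_mul, abs_of_pos hlx, abs_pow] at h5
    have h6 : l0 * Λ * ν1 ^ 3 ≤ lam x * |G3 (F x)| * |fderiv ℝ F x k| ^ 3 :=
      mul_le_mul (mul_le_mul hlx0 h3 hΛpos.le hlx.le) (pow_le_pow_left₀ hν1pos.le hd 3)
        (by positivity) (by positivity)
    have h7 : |G2 (F x)| ≤ L + L1 := abs_le.mpr ⟨by linarith, by linarith⟩
    have h8 : R * (1 + |G2 (F x)|) ≤ R * (1 + L + L1) :=
      mul_le_mul_of_nonneg_left (by linarith) hR0.le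
    have h9 : l0 * Λ * ν1 ^ 3 = Λ * (l0 * ν1 ^ 3) := by ring
    linarith
  rcases hGood (F x) hF0 hFS with h | h | h | h
  · exact (case_a hR hm hlx hlxR (hdR k hk1) (c1 x hx hF0 k hk1) hL hκ hκ0 h.1 ek hRη).elim
  · exfalso
    obtain ⟨v, hv1, hv⟩ := c3 x hx hF0 (h.1.trans (by linarith))
    refine no_kernel hdim hsym hgt (v := v) ?_ hk0 hk
    have h1 := (abs_le.mp (e2 v hv1)).2
    have h2 : (fderiv ℝ F x v) ^ 2 ≤ R ^ 2 := by
      rw [← sq_abs]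
      exact pow_le_pow_left₀ (abs_nonneg _) (hdR v hv1) 2
    have h3 : κ * (4 * R ^ 3) ≤ m := by rwa [le_div_iff₀ (by positivity)] at hκ0
    have h4 : lam x * G2 (F x) * (fderiv ℝ F x v) ^ 2 ≤ R * κ * R ^ 2 :=
      mul_le_mul (mul_le_mul hlxR h.2.2 h.2.1 hR0.le) h2 (sq_nonneg _) (by positivity)
    have h5 : κ * (4 * R ^ 3) = 4 * (R * κ * R ^ 2) := by ring
    linarith
  · exfalso
    obtain ⟨⟨c, hc, hcr⟩, hG2⟩ := h
    obtain ⟨n, hn1, hn⟩ := hlev x hx ⟨c, hc, hcr.trans hrr2⟩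
    refine no_kernel hdim hsym hgt (v := n) ?_ hk0 hk
    have h1 := (abs_le.mp (e2 n hn1)).2
    have h2 := (abs_le.mp (hfR n hn1)).2
    have h3 : g ^ 2 ≤ (fderiv ℝ F x n) ^ 2 := pow_le_pow_left₀ hg.le hn 2
    have h4 : l0 * g ^ 2 ≤ lam x * (fderiv ℝ F x n) ^ 2 :=
      mul_le_mul hlx0 h3 (by positivity) hlx.le
    have h5 : L1 * (l0 * g ^ 2) ≤ -(G2 (F x)) * (lam x * (fderiv ℝ F x n) ^ 2) :=
      mul_le_mul (by linarith) h4 (by positivity) (by linarith)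
    have h6 : R * η0 ≤ R := mul_le_of_le_one_right hR0.le hη1
    have h7 : -(G2 (F x)) * (lam x * (fderiv ℝ F x n) ^ 2) =
      -(lam x * G2 (F x) * (fderiv ℝ F x n) ^ 2) := by ring
    linarith
  · exact fin h.1 h.2.1 h.2.2.1

end

end Pool.Agent.H81.HB.T.SIDE
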